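import Mathlib
import Pool.Agent.R259.Theta2

/-!
# MP_27c522_an, Q1 (Vishnyakova): `p_n` has exactly two real zeros for odd `n ≥ 3`

`p_n(z) = ∑_{k=0}^n (-1)^k (2k+1) z^{k(k+1)}`.  The proof compares the partial sum with the
product `∏ (1 - q^m)^3` (Jacobi's identity, `q = z²`), see `Pool/Agent/R259/Jac*.lean` and
`Pool/Agent/R259/Theta*.lean`.
-/

set_option autoImplicit false

namespace Pool.Agent.Results.MP_27c522_an.TwoRealZeros

open Polynomial

/-- `p_n(z) = ∑_{k=0}^n (-1)^k (2k+1) z^{k(k+1)}` as a real polynomial. -/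
noncomputable def p (n : ℕ) : ℝ[X] :=
  ∑ k ∈ Finset.range (n + 1), C ((-1 : ℝ) ^ k * (2 * (k : ℝ) + 1)) * X ^ (k * (k + 1))

lemma p_eval (n : ℕ) (x : ℝ) : (p n).eval x = Pool.Agent.R259.Jac.P n (x ^ 2) := by
  unfold p Pool.Agent.R259.Jac.P Pool.Agent.R259.Jac.t
  rw [eval_finsetSum]
  refine Finset.sum_congr rfl fun j _ => ?_
  rw [eval_mul, eval_C, eval_pow, eval_X, ← pow_mul, Pool.Agent.R259.Jac.tri_two]
  ring

/-- **MP_27c522_an, Q1 (positive answer).** For every odd `n ≥ 3` there is `s > 0` such that the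
real zeros of `p_n` are exactly `s` and `-s`; in particular `p_n` has exactly two
real zeros. -/
theorem result : ∀ n : ℕ, 3 ≤ n → Odd n →
    {x : ℝ | (p n).eval x = 0}.ncard = 2 ∧
    ∃ s : ℝ, 0 < s ∧ {x : ℝ | (p n).eval x = 0} = {s, -s} := by
  intro n hn3 hn
  obtain ⟨q0, hq0, hz, huniq⟩ := Pool.Agent.R259.Jac.P_odd_unique hn hn3
  set s := Real.sqrt q0 with hs
  have hs0 : 0 < s := Real.sqrt_pos.2 hq0
  have hss : s ^ 2 = q0 := Real.sq_sqrt hq0.le
  have hset : {x : ℝ | (p n).eval x = 0} = {s, -s} := by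
    ext x
    rw [Set.mem_setOf_eq, p_eval]
    simp only [Set.mem_insert_iff, Set.mem_singleton_iff]
    constructor
    · intro h
      have h1 := huniq _ (sq_nonneg x) h
      rw [← hss] at h1
      exact sq_eq_sq_iff_eq_or_eq_neg.1 h1
    · rintro (rfl | rfl)
      · rw [hss]; exact hz
      · rw [neg_sq, hss]; exact hz
  refine ⟨?_, s, hs0, hset⟩
  rw [hset, Set.ncard_pair]
  intro h
  linarith

end Pool.Agent.Results.MP_27c522_an.TwoRealZeros
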